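import Pool.Agent.D0H91.GI.Stm
import Pool.Agent.W93.GB4

/-! Project GI (helper91), module BASE: the classical case. -/

set_option autoImplicit false

namespace Pool.Agent.D0H42.GI

open Finset Filter Topology
open Pool.Agent.D0H91.GI
open Pool.Agent.H560R3.GB (sing g HL energy)
open Pool.Agent.W93.GB (Good fam)

theorem KK_nil : KK [] = 1 := by
  simp [KK]

theorem ch_nil (q : ℕ) : ch [] q = q := by
  simp [ch]

theorem cn_nil (u : ℕ) (hu : 1 ≤ u) : cn [] u = if u.Prime then 1 else 0 := by
  unfold cn
  rw [KK_nil]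
  split_ifs with hp
  · rw [Finset.card_eq_one]
    refine ⟨u, ?_⟩
    ext q
    rw [Finset.mem_filter, Finset.mem_Icc, Finset.mem_singleton, ch_nil]
    constructor
    · rintro ⟨-, -, h⟩
      exact h
    · intro h
      rw [h]
      exact ⟨⟨hu, by omega⟩, hp, rfl⟩
  · rw [Finset.card_eq_zero, Finset.filter_eq_empty_iff]
    intro q _ h
    rw [ch_nil] at h
    apply hp
    rw [← h.2]
    exact h.1

theorem rr_nil (n : ℕ) : rr [] [] n = g n := by
  unfold rr g
  rw [Finset.card_filter, Finset.Nat.sum_antidiagonal_eq_sum_range_succ_mk]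
  have h1 : ∑ u ∈ Ico 1 n, cn [] u * cn [] (n - u) =
      ∑ u ∈ Ico 1 n, if u.Prime ∧ (n - u).Prime then 1 else 0 := by
    apply Finset.sum_congr rfl
    intro u hu
    rw [Finset.mem_Ico] at hu
    rw [cn_nil u hu.1, cn_nil (n - u) (by omega)]
    by_cases h1 : u.Prime <;> by_cases h2 : (n - u).Prime <;> simp [h1, h2]
  rw [h1]
  apply Finset.sum_subset
  · intro u hu
    rw [Finset.mem_Ico] at hu
    rw [Finset.mem_range]
    omega
  · intro u hu hu'
    rw [if_neg]
    rintro ⟨hp, hq⟩
    apply hu'
    rw [Finset.mem_Ico]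
    have := hp.one_lt
    have := hq.one_lt
    omega

theorem energy_one (x : ℕ) : energy 1 x (fun m => 2 * m) ≤ x := by
  unfold energy
  calc _ ≤ (Icc 1 x).card := by
        apply Finset.card_le_card_of_injOn (fun q => q.1 0)
        · intro q hq
          rw [Finset.mem_coe, Finset.mem_filter, Finset.mem_product, Fintype.mem_piFinset] at hq
          exact Finset.mem_coe.2 (hq.1.1 0)
        · intro q hq q' hq' h
          rw [Finset.mem_coe, Finset.mem_filter] at hq hq'
          have h1 := hq.2
          have h2 := hq'.2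
          simp only [Finset.univ_unique, Fin.default_eq_zero, Fin.isValue, Finset.sum_singleton] at h1 h2
          have h3 : q.1 0 = q'.1 0 := h
          have e1 : q.1 = q'.1 := by
            funext i
            rw [Subsingleton.elim i 0]
            exact h3
          have e2 : q.2 = q'.2 := by
            funext i
            rw [Subsingleton.elim i 0]
            omega
          exact Prod.ext e1 e2
    _ = x := by simp

/-- **BASE** -/
theorem t_BASE : S_BASE := by
  classical
  intro ε hε U
  obtain ⟨N₀, hN₀⟩ := fam 1 2 1 U le_rfl ε hε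
  have hlog : Tendsto (fun N : ℕ => Real.log (N : ℝ)) atTop atTop :=
    Real.tendsto_log_atTop.comp tendsto_natCast_atTop_atTop
  filter_upwards [eventually_ge_atTop N₀, eventually_ge_atTop 4, hlog.eventually_ge_atTop 4]
    with N hN hN4 hL
  obtain ⟨x, hx⟩ : ∃ x, x = N / 2 := ⟨_, rfl⟩
  obtain ⟨S, hS⟩ : ∃ S, S = (Icc 1 x).filter (fun m => ¬ Good ε (2 * m)) := ⟨_, rfl⟩
  have hxN : N ≤ 4 * x := by omega
  have hxr : (N : ℝ) ≤ 4 * x := by exact_mod_cast hxN
  have hN0 : (0 : ℝ) < N := by
    have : 0 < N := by omega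
    exact_mod_cast this
  have hx0 : (0 : ℝ) ≤ x := Nat.cast_nonneg x
  have h1 := hN₀ N hN x (fun m => 2 * m) (by
    intro m hm
    rw [Finset.mem_Icc] at hm
    exact ⟨by omega, Dvd.intro _ rfl⟩) (by
    have he : (energy 1 x (fun m => 2 * m) : ℝ) ≤ x := by exact_mod_cast energy_one x
    rw [pow_one, mul_one]
    calc (energy 1 x (fun m => 2 * m) : ℝ) * N ≤ x * N := mul_le_mul_of_nonneg_right he hN0.le
      _ ≤ x * (4 * x) := mul_le_mul_of_nonneg_left hxr hx0
      _ = 4 * (x : ℝ) ^ 2 := by ring
      _ ≤ Real.log N * (x : ℝ) ^ 2 := mul_le_mul_of_nonneg_right hL (by positivity))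
    S (by rw [hS]; exact Finset.filter_subset _ _) (by
    intro m hm
    rw [hS, Finset.mem_filter] at hm
    exact hm.2)
  have h2 : ((Icc 1 N).filter fun n => Even n ∧
      ¬ |(rr [] [] n : ℝ) * Real.log n ^ 2 - sing n * n| ≤ ε * (sing n * n)).card ≤ S.card := by
    apply Finset.card_le_card_of_injOn (fun n => n / 2)
    · intro n hn
      rw [Finset.mem_coe, Finset.mem_filter, Finset.mem_Icc] at hn
      obtain ⟨⟨hn1, hn2⟩, hev, hnot⟩ := hn
      obtain ⟨m, hm⟩ := hev
      have hm2 : n / 2 = m := by omega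
      change n / 2 ∈ (S : Set ℕ)
      rw [hm2, Finset.mem_coe, hS, Finset.mem_filter, Finset.mem_Icc]
      refine ⟨⟨by omega, by omega⟩, ?_⟩
      intro hgood
      apply hnot
      have hnm : 2 * m = n := by omega
      rw [hnm] at hgood
      have hg := hgood.1
      have hn2' : (2 : ℝ) ≤ n := by
        have : 2 ≤ n := by omega
        exact_mod_cast this
      have hl : 0 < Real.log (n : ℝ) := Real.log_pos (by linarith)
      rw [rr_nil]
      unfold HL at hg
      have e1 : (g n : ℝ) * Real.log n ^ 2 - sing n * n =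
          Real.log n ^ 2 * ((g n : ℝ) - sing n * (n / Real.log n ^ 2)) := by
        field_simp
      have e2 : ε * (sing n * n) = Real.log n ^ 2 * (ε * (sing n * (n / Real.log n ^ 2))) := by
        field_simp
      rw [e1, e2, abs_mul, abs_of_nonneg (show 0 ≤ Real.log (n : ℝ) ^ 2 by positivity)]
      exact mul_le_mul_of_nonneg_left hg (by positivity)
    · intro n hn n' hn' h
      rw [Finset.mem_coe, Finset.mem_filter] at hn hn'
      obtain ⟨m, hm⟩ := hn.2.1
      obtain ⟨m', hm'⟩ := hn'.2.1
      have h' : n / 2 = n' / 2 := h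
      omega
  have h3 : (((Icc 1 N).filter fun n => Even n ∧
      ¬ |(rr [] [] n : ℝ) * Real.log n ^ 2 - sing n * n| ≤ ε * (sing n * n)).card : ℝ) ≤ S.card := by
    exact_mod_cast h2
  refine h3.trans (h1.trans ?_)
  have hL0 : 0 < Real.log (N : ℝ) := by linarith
  apply div_le_div_of_nonneg_right _ (by positivity)
  have : x ≤ N := by omega
  exact_mod_cast this

end Pool.Agent.D0H42.GI
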