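import Pool.Agent.D0H91.GI.Stm

/-! Project GI (helper91), module CT: from weights to numbers. -/

set_option autoImplicit false

namespace Pool.Agent.D0H42.GI

open Finset Filter Topology
open Pool.Agent.D0H91.GI

theorem mu_eq (l : List ℝ) (u : ℕ) : mu l u =
    ∑ q ∈ (Icc 1 (KK l * (u + 1))).filter (fun q => q.Prime ∧ ch l q = u), Real.log q * wt l q := by
  unfold mu
  rw [Finset.sum_filter]
  apply Finset.sum_congr rfl
  intro q _
  unfold Pool.Agent.W301.SS.om
  by_cases h1 : q.Prime <;> by_cases h2 : ch l q = u <;> simp [h1, h2]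

theorem cn_le {l : List ℝ} {C u : ℕ} (h : ((Icc 1 (KK l * (u + 1))).filter fun q => ch l q = u).card ≤ C) :
    cn l u ≤ C := by
  refine le_trans ?_ h
  unfold cn
  apply Finset.card_le_card
  intro q hq
  rw [Finset.mem_filter] at hq ⊢
  exact ⟨hq.1, hq.2.2⟩

theorem lemA (hAS : S_AS) (l : List ℝ) (hl : Pos l) (θ : ℝ) (hθ : 0 < θ) : ∃ U0 : ℕ, ∀ u : ℕ, U0 ≤ u →
    |mu l u - l.prod * Real.log u ^ (l.length + 1) * cn l u| ≤
      θ * (l.prod * Real.log u ^ (l.length + 1) * cn l u) := by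
  obtain ⟨h1, h2⟩ := hAS l hl
  have hP : 0 < l.prod := List.prod_pos fun α hα => hl α hα
  have e1 := h1.eventually_ge_atTop 2
  have e2 := (Metric.tendsto_nhds.1 h2) θ hθ
  obtain ⟨Q0, hQ0⟩ := (e1.and e2).exists_forall_of_atTop
  refine ⟨(Finset.range Q0).sup (ch l) + 1, fun u hu => ?_⟩
  have key : ∀ q, ch l q = u → Q0 ≤ q := by
    intro q hq
    by_contra h
    push Not at h
    have := Finset.le_sup (f := ch l) (Finset.mem_range.2 h)
    omega
  rw [mu_eq]
  unfold cn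
  obtain ⟨F, hF⟩ : ∃ F, F = (Icc 1 (KK l * (u + 1))).filter (fun q => q.Prime ∧ ch l q = u) := ⟨_, rfl⟩
  rw [← hF]
  obtain ⟨D, hD⟩ : ∃ D, D = l.prod * Real.log u ^ (l.length + 1) := ⟨_, rfl⟩
  rw [← hD]
  have e3 : D * (F.card : ℝ) = ∑ q ∈ F, D := by
    rw [Finset.sum_const, nsmul_eq_mul, mul_comm]
  have e4 : θ * (D * (F.card : ℝ)) = ∑ q ∈ F, θ * D := by
    rw [e3, Finset.mul_sum]
  rw [e4, e3, ← Finset.sum_sub_distrib]
  refine (Finset.abs_sum_le_sum_abs _ _).trans ?_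
  apply Finset.sum_le_sum
  intro q hq
  rw [hF, Finset.mem_filter] at hq
  obtain ⟨-, -, hqu⟩ := hq
  obtain ⟨g1, g2⟩ := hQ0 q (key q hqu)
  rw [hqu] at g1 g2
  rw [Real.dist_eq, ← hD] at g2
  have hlog : 0 < Real.log u := Real.log_pos (by exact_mod_cast g1)
  have hD0 : 0 < D := by
    rw [hD]
    positivity
  have e5 : Real.log q * wt l q - D = D * (Real.log q * wt l q / D - 1) := by
    field_simp
  rw [e5, abs_mul, abs_of_pos hD0, mul_comm]
  exact mul_le_mul_of_nonneg_right g2.le hD0.le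

/-- comparison with `log n` -/
theorem lemB (l : List ℝ) (hl : Pos l) (θ η : ℝ) (hη0 : 0 ≤ η) (hη : (l.length + 1 : ℕ) * η ≤ θ / 2)
    (hη1 : η ≤ 1) (n u : ℕ) (hu : 1 ≤ u) (hn : 1 ≤ n) (hun : u ≤ n) (hlow : (n : ℝ) ^ (1 - η) ≤ u)
    (h : |mu l u - l.prod * Real.log u ^ (l.length + 1) * cn l u| ≤
      θ / 2 * (l.prod * Real.log u ^ (l.length + 1) * cn l u)) (hθ : 0 ≤ θ) :
    |mu l u - l.prod * Real.log n ^ (l.length + 1) * cn l u| ≤
      θ * (l.prod * Real.log n ^ (l.length + 1) * cn l u) := by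
  have hP : 0 < l.prod := List.prod_pos fun α hα => hl α hα
  have hn0 : (0 : ℝ) < n := by exact_mod_cast hn
  have hu0 : (0 : ℝ) < u := by exact_mod_cast hu
  have hLu0 : 0 ≤ Real.log u := Real.log_natCast_nonneg u
  have hLn0 : 0 ≤ Real.log n := Real.log_natCast_nonneg n
  have h1 : Real.log u ≤ Real.log n := Real.log_le_log hu0 (by exact_mod_cast hun)
  have h2 : (1 - η) * Real.log n ≤ Real.log u := by
    have := Real.log_le_log (by positivity) hlow
    rwa [Real.log_rpow hn0] at this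
  obtain ⟨k, hk⟩ : ∃ k, k = l.length + 1 := ⟨_, rfl⟩
  rw [← hk] at h hη ⊢
  have h3 : Real.log u ^ k ≤ Real.log n ^ k := pow_le_pow_left₀ hLu0 h1 k
  have h4 : (1 - θ / 2) * Real.log n ^ k ≤ Real.log u ^ k := by
    have h5 : ((1 - η) * Real.log n) ^ k ≤ Real.log u ^ k :=
      pow_le_pow_left₀ (mul_nonneg (by linarith) hLn0) h2 k
    have h6 : 1 - (k : ℝ) * η ≤ (1 - η) ^ k := by
      have := one_add_mul_le_pow (show (-2 : ℝ) ≤ -η by linarith) k
      calc 1 - (k : ℝ) * η = 1 + (k : ℝ) * (-η) := by ring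
        _ ≤ (1 + -η) ^ k := this
        _ = (1 - η) ^ k := by ring
    rw [mul_pow] at h5
    refine le_trans ?_ h5
    apply mul_le_mul_of_nonneg_right _ (by positivity)
    linarith
  obtain ⟨c, hc⟩ : ∃ c : ℝ, c = l.prod * cn l u := ⟨_, rfl⟩
  have hc0 : 0 ≤ c := by
    rw [hc]
    positivity
  have e1 : ∀ x : ℝ, l.prod * x * cn l u = x * c := by
    intro x
    rw [hc]
    ring
  rw [e1] at h ⊢
  have h7 : |mu l u - Real.log n ^ k * c| ≤ |mu l u - Real.log u ^ k * c| + |Real.log u ^ k * c - Real.log n ^ k * c| :=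
    abs_sub_le _ _ _
  have h8 : |Real.log u ^ k * c - Real.log n ^ k * c| ≤ θ / 2 * (Real.log n ^ k * c) := by
    rw [← sub_mul, abs_mul, abs_of_nonneg hc0, ← mul_assoc]
    apply mul_le_mul_of_nonneg_right _ hc0
    rw [abs_le]
    constructor
    · linarith
    · have : 0 ≤ θ / 2 * Real.log n ^ k := by positivity
      linarith
  have h9 : θ / 2 * (Real.log u ^ k * c) ≤ θ / 2 * (Real.log n ^ k * c) := by
    apply mul_le_mul_of_nonneg_left _ (by positivity)
    exact mul_le_mul_of_nonneg_right h3 hc0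
  linarith

theorem prod_close (x y a b θ ε : ℝ) (ha : 0 ≤ a) (hb : 0 ≤ b) (hθ0 : 0 ≤ θ) (hθ1 : θ ≤ 1) (hθ : 3 * θ ≤ ε)
    (hx : |x - a| ≤ θ * a) (hy : |y - b| ≤ θ * b) : |x * y - a * b| ≤ ε * (a * b) := by
  have h1 : x * y - a * b = (x - a) * (y - b) + a * (y - b) + (x - a) * b := by ring
  rw [h1]
  have hab : 0 ≤ a * b := mul_nonneg ha hb
  have h2 : |(x - a) * (y - b)| ≤ θ * (a * b) := by
    rw [abs_mul]
    calc |x - a| * |y - b| ≤ (θ * a) * (θ * b) := mul_le_mul hx hy (abs_nonneg _) (by positivity)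
      _ = θ * (θ * (a * b)) := by ring
      _ ≤ θ * (1 * (a * b)) := by
          apply mul_le_mul_of_nonneg_left _ hθ0
          exact mul_le_mul_of_nonneg_right hθ1 hab
      _ = θ * (a * b) := by ring
  have h3 : |a * (y - b)| ≤ θ * (a * b) := by
    rw [abs_mul, abs_of_nonneg ha]
    calc a * |y - b| ≤ a * (θ * b) := mul_le_mul_of_nonneg_left hy ha
      _ = θ * (a * b) := by ring
  have h4 : |(x - a) * b| ≤ θ * (a * b) := by
    rw [abs_mul, abs_of_nonneg hb]
    calc |x - a| * b ≤ θ * a * b := mul_le_mul_of_nonneg_right hx hb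
      _ = θ * (a * b) := by ring
  have h5 : |(x - a) * (y - b) + a * (y - b) + (x - a) * b| ≤
      |(x - a) * (y - b)| + |a * (y - b)| + |(x - a) * b| := abs_add_three _ _ _
  have h6 : 3 * θ * (a * b) ≤ ε * (a * b) := mul_le_mul_of_nonneg_right hθ hab
  linarith

theorem bad_card (n : ℕ) (y : ℝ) (hy : 0 ≤ y) :
    (((Ico 1 n).filter fun u : ℕ => ¬ (y ≤ u ∧ y ≤ ((n - u : ℕ) : ℝ))).card : ℝ) ≤ 2 * (y + 1) := by
  classical
  obtain ⟨m, hm⟩ : ∃ m, m = ⌈y⌉₊ := ⟨_, rfl⟩
  have hmy : (m : ℝ) ≤ y + 1 := by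
    rw [hm]
    exact (Nat.ceil_lt_add_one hy).le
  have h1 : ((Ico 1 n).filter fun u : ℕ => ¬ (y ≤ u ∧ y ≤ ((n - u : ℕ) : ℝ))) ⊆
      Finset.range m ∪ ((Ico 1 n).filter fun u : ℕ => n - u < m) := by
    intro u hu
    rw [Finset.mem_filter] at hu
    obtain ⟨hu1, hu2⟩ := hu
    rw [Finset.mem_union, Finset.mem_range, Finset.mem_filter]
    by_cases h : y ≤ u
    · right
      refine ⟨hu1, ?_⟩
      have h2 : ((n - u : ℕ) : ℝ) < y := by
        by_contra h3
        exact hu2 ⟨h, not_lt.1 h3⟩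
      rw [hm]
      exact Nat.lt_ceil.2 h2
    · left
      rw [hm]
      exact Nat.lt_ceil.2 (not_le.1 h)
  have h2 : ((Ico 1 n).filter fun u : ℕ => n - u < m).card ≤ m := by
    calc ((Ico 1 n).filter fun u : ℕ => n - u < m).card ≤ (Finset.range m).card := by
          apply Finset.card_le_card_of_injOn (fun u => n - u)
          · intro u hu
            rw [Finset.mem_coe, Finset.mem_filter] at hu
            exact Finset.mem_coe.2 (Finset.mem_range.2 hu.2)
          · intro u hu v hv h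
            rw [Finset.mem_coe, Finset.mem_filter, Finset.mem_Ico] at hu hv
            have h' : n - u = n - v := h
            omega
      _ = m := Finset.card_range m
  have h3 : ((Ico 1 n).filter fun u : ℕ => ¬ (y ≤ u ∧ y ≤ ((n - u : ℕ) : ℝ))).card ≤ m + m := by
    refine (Finset.card_le_card h1).trans ((Finset.card_union_le _ _).trans ?_)
    rw [Finset.card_range]
    omega
  have h4 : (((Ico 1 n).filter fun u : ℕ => ¬ (y ≤ u ∧ y ≤ ((n - u : ℕ) : ℝ))).card : ℝ) ≤ m + m := by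
    exact_mod_cast h3
  linarith

/-- **CT** -/
theorem t_CT : S_TR → S_MB → S_AS → S_CT := by
  classical
  intro _ hMB hAS l l' hl hl' ε hε
  obtain ⟨C, E, -, -, hC, hE⟩ := hMB l hl
  obtain ⟨C', E', -, -, hC', hE'⟩ := hMB l' hl'
  have hP : 0 < l.prod := List.prod_pos fun α hα => hl α hα
  have hP' : 0 < l'.prod := List.prod_pos fun α hα => hl' α hα
  obtain ⟨θ, hθ⟩ : ∃ θ, θ = min 1 (ε / 3) := ⟨_, rfl⟩
  have hθ0 : 0 < θ := by
    rw [hθ]
    positivity
  have hθ1 : θ ≤ 1 := by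
    rw [hθ]
    exact min_le_left _ _
  have hθ3 : 3 * θ ≤ ε := by
    have : θ ≤ ε / 3 := by
      rw [hθ]
      exact min_le_right _ _
    linarith
  obtain ⟨η, hη⟩ : ∃ η, η = θ / (2 * (l.length + l'.length + 1 : ℕ)) := ⟨_, rfl⟩
  have hη0 : 0 < η := by
    rw [hη]
    positivity
  have hηle : η * (l.length + l'.length + 1 : ℕ) = θ / 2 := by
    rw [hη]
    have : ((l.length + l'.length + 1 : ℕ) : ℝ) ≠ 0 := by positivity
    field_simp
  have hη1 : η ≤ 1 := by
    have h1 : (1 : ℝ) ≤ (l.length + l'.length + 1 : ℕ) := by exact_mod_cast (by omega)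
    nlinarith
  have hηa : (l.length + 1 : ℕ) * η ≤ θ / 2 := by
    rw [← hηle, mul_comm]
    apply mul_le_mul_of_nonneg_left _ hη0.le
    exact_mod_cast (by omega)
  have hηb : (l'.length + 1 : ℕ) * η ≤ θ / 2 := by
    rw [← hηle, mul_comm]
    apply mul_le_mul_of_nonneg_left _ hη0.le
    exact_mod_cast (by omega)
  obtain ⟨U0, hU0⟩ := lemA hAS l hl (θ / 2) (by positivity)
  obtain ⟨U1, hU1⟩ := lemA hAS l' hl' (θ / 2) (by positivity)
  have hcast : Tendsto (fun N : ℕ => (N : ℝ)) atTop atTop := tendsto_natCast_atTop_atTop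
  obtain ⟨M, hM⟩ : ∃ M, M = E + E' + (l.length + l'.length + 2) := ⟨_, rfl⟩
  obtain ⟨K, hK⟩ : ∃ K : ℝ, K = C * C' * 2 ^ (E + E') + l.prod * l'.prod * (C * C') + 1 := ⟨_, rfl⟩
  have hK0 : 0 < K := by
    rw [hK]
    positivity
  have ev1 : ∀ᶠ n : ℕ in atTop, Real.log n ^ M ≤ ε / (4 * K) * (n : ℝ) ^ η := by
    have h := (isLittleO_log_rpow_rpow_atTop (M : ℝ) hη0).bound (show 0 < ε / (4 * K) by positivity)
    have h' := hcast.eventually h
    filter_upwards [h', eventually_ge_atTop 1] with u hu hu1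
    have hl : 0 ≤ Real.log (u : ℝ) := Real.log_natCast_nonneg u
    rw [Real.rpow_natCast, Real.norm_of_nonneg (by positivity), Real.norm_of_nonneg (by positivity)] at hu
    exact hu
  have ev2 : ∀ᶠ n : ℕ in atTop, (1 : ℝ) ≤ Real.log n :=
    (Real.tendsto_log_atTop.comp hcast).eventually_ge_atTop 1
  rcases lt_or_ge η 1 with hηlt | hηge
  swap
  · exfalso
    have h1 : (1 : ℝ) ≤ (l.length + l'.length + 1 : ℕ) := by exact_mod_cast (by omega)
    nlinarith
  have ev3 : ∀ᶠ n : ℕ in atTop, ((U0 + U1 + 1 : ℕ) : ℝ) ≤ (n : ℝ) ^ (1 - η) :=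
    ((tendsto_rpow_atTop (by linarith : 0 < 1 - η)).comp hcast).eventually_ge_atTop _
  filter_upwards [ev1, ev2, ev3, eventually_ge_atTop 3] with n hn1 hn2 hn3 hn4
  have hnR : (3 : ℝ) ≤ n := by exact_mod_cast hn4
  have hn0 : (0 : ℝ) < n := by linarith
  obtain ⟨L, hL⟩ : ∃ L, L = Real.log (n : ℝ) := ⟨_, rfl⟩
  rw [← hL] at hn1 hn2
  have hL0 : 0 < L := by linarith
  obtain ⟨X, hX⟩ : ∃ X, X = l.prod * L ^ (l.length + 1) := ⟨_, rfl⟩
  obtain ⟨X', hX'⟩ : ∃ X', X' = l'.prod * L ^ (l'.length + 1) := ⟨_, rfl⟩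
  have hX0 : 0 < X := by
    rw [hX]
    positivity
  have hX'0 : 0 < X' := by
    rw [hX']
    positivity
  have hXX : l.prod * l'.prod * L ^ (l.length + l'.length + 2) = X * X' := by
    rw [hX, hX']
    ring
  obtain ⟨y, hy⟩ : ∃ y, y = (n : ℝ) ^ (1 - η) := ⟨_, rfl⟩
  rw [← hy] at hn3
  have hy1 : 1 ≤ y := by
    rw [hy]
    exact Real.one_le_rpow (by linarith) (by linarith)
  -- the good terms
  have good : ∀ u ∈ Ico 1 n, (y ≤ u ∧ y ≤ ((n - u : ℕ) : ℝ)) →
      |mu l u * mu l' (n - u) - X * X' * (cn l u * cn l' (n - u) : ℕ)| ≤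
        ε * (X * X' * (cn l u * cn l' (n - u) : ℕ)) := by
    intro u hu hgood
    rw [Finset.mem_Ico] at hu
    have hn3' : ((U0 + U1 + 1 : ℕ) : ℝ) ≤ (u : ℝ) := hn3.trans hgood.1
    have hn3'' : ((U0 + U1 + 1 : ℕ) : ℝ) ≤ ((n - u : ℕ) : ℝ) := hn3.trans hgood.2
    have hu3 : U0 + U1 + 1 ≤ u := by exact_mod_cast hn3'
    have hu4 : U0 + U1 + 1 ≤ n - u := by exact_mod_cast hn3''
    have b1 := lemB l hl θ η hη0.le hηa hη1 n u (by omega) (by omega) (by omega)
      (by rw [← hy]; exact hgood.1) (hU0 u (by omega)) hθ0.le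
    have b2 := lemB l' hl' θ η hη0.le hηb hη1 n (n - u) (by omega) (by omega) (by omega)
      (by rw [← hy]; exact hgood.2) (hU1 (n - u) (by omega)) hθ0.le
    rw [← hL, ← hX] at b1
    rw [← hL, ← hX'] at b2
    have b3 := prod_close _ _ _ _ θ ε (by positivity) (by positivity) hθ0.le hθ1 hθ3 b1 b2
    have e1 : X * cn l u * (X' * cn l' (n - u)) = X * X' * (cn l u * cn l' (n - u) : ℕ) := by
      push_cast
      ring
    rw [e1] at b3
    exact b3
  -- the bad terms
  have hln3 : ∀ v : ℕ, v ≤ n → Real.log ((v : ℝ) + 3) ≤ 2 * L := by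
    intro v hv
    have hvn : (v : ℝ) ≤ n := by exact_mod_cast hv
    have hv0 : (0 : ℝ) ≤ v := Nat.cast_nonneg v
    calc Real.log ((v : ℝ) + 3) ≤ Real.log ((n : ℝ) ^ 2) := Real.log_le_log (by linarith) (by nlinarith)
      _ = 2 * L := by
          rw [Real.log_pow, hL]
          push_cast
          ring
  have bad : ∀ u ∈ Ico 1 n, |mu l u * mu l' (n - u) - X * X' * (cn l u * cn l' (n - u) : ℕ)| ≤ K * L ^ M := by
    intro u hu
    rw [Finset.mem_Ico] at hu
    have c1 := hE u (by omega)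
    have c2 := hE' (n - u) (by omega)
    have c3 := cn_le (hC u (by omega))
    have c4 := cn_le (hC' (n - u) (by omega))
    have hl0 : 0 ≤ Real.log ((u : ℝ) + 3) := Real.log_nonneg (by
      have : (0 : ℝ) ≤ u := Nat.cast_nonneg u
      linarith)
    have hl0' : 0 ≤ Real.log (((n - u : ℕ) : ℝ) + 3) := Real.log_nonneg (by
      have : (0 : ℝ) ≤ ((n - u : ℕ) : ℝ) := Nat.cast_nonneg _
      linarith)
    have d1 : |mu l u| ≤ C * (2 * L) ^ E := by
      refine c1.trans ?_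
      apply mul_le_mul_of_nonneg_left _ (Nat.cast_nonneg C)
      exact pow_le_pow_left₀ hl0 (hln3 u (by omega)) E
    have d2 : |mu l' (n - u)| ≤ C' * (2 * L) ^ E' := by
      refine c2.trans ?_
      apply mul_le_mul_of_nonneg_left _ (Nat.cast_nonneg C')
      exact pow_le_pow_left₀ hl0' (hln3 (n - u) (by omega)) E'
    have d3 : |mu l u * mu l' (n - u)| ≤ C * C' * 2 ^ (E + E') * L ^ (E + E') := by
      rw [abs_mul]
      calc |mu l u| * |mu l' (n - u)| ≤ (C * (2 * L) ^ E) * (C' * (2 * L) ^ E') :=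
            mul_le_mul d1 d2 (abs_nonneg _) (by positivity)
        _ = C * C' * 2 ^ (E + E') * L ^ (E + E') := by
            rw [mul_pow, mul_pow, pow_add, pow_add]
            ring
    have d4 : X * X' * ((cn l u * cn l' (n - u) : ℕ) : ℝ) ≤
        l.prod * l'.prod * (C * C') * L ^ (l.length + l'.length + 2) := by
      rw [← hXX]
      have e1 : ((cn l u * cn l' (n - u) : ℕ) : ℝ) ≤ C * C' := by
        exact_mod_cast Nat.mul_le_mul c3 c4
      calc l.prod * l'.prod * L ^ (l.length + l'.length + 2) * ((cn l u * cn l' (n - u) : ℕ) : ℝ) ≤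
            l.prod * l'.prod * L ^ (l.length + l'.length + 2) * (C * C') :=
            mul_le_mul_of_nonneg_left e1 (by positivity)
        _ = l.prod * l'.prod * (C * C') * L ^ (l.length + l'.length + 2) := by ring
    have d5 : 0 ≤ X * X' * ((cn l u * cn l' (n - u) : ℕ) : ℝ) := by positivity
    have p1 : L ^ (E + E') ≤ L ^ M := pow_le_pow_right₀ hn2 (by omega)
    have p2 : L ^ (l.length + l'.length + 2) ≤ L ^ M := pow_le_pow_right₀ hn2 (by omega)
    have q1 : (C : ℝ) * C' * 2 ^ (E + E') * L ^ (E + E') ≤ C * C' * 2 ^ (E + E') * L ^ M :=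
      mul_le_mul_of_nonneg_left p1 (by positivity)
    have q2 : l.prod * l'.prod * (C * C') * L ^ (l.length + l'.length + 2) ≤
        l.prod * l'.prod * (C * C') * L ^ M := mul_le_mul_of_nonneg_left p2 (by positivity)
    have q3 : K * L ^ M = C * C' * 2 ^ (E + E') * L ^ M + l.prod * l'.prod * (C * C') * L ^ M + L ^ M := by
      rw [hK]
      ring
    have q4 : 0 ≤ L ^ M := by positivity
    have q5 := abs_sub (mu l u * mu l' (n - u)) (X * X' * ((cn l u * cn l' (n - u) : ℕ) : ℝ))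
    rw [abs_of_nonneg d5] at q5
    linarith
  -- assembly
  obtain ⟨Gd, hGd⟩ : ∃ Gd, Gd = (Ico 1 n).filter fun u : ℕ => (y ≤ u ∧ y ≤ ((n - u : ℕ) : ℝ)) := ⟨_, rfl⟩
  obtain ⟨Bd, hBd⟩ : ∃ Bd, Bd = (Ico 1 n).filter fun u : ℕ => ¬ (y ≤ u ∧ y ≤ ((n - u : ℕ) : ℝ)) := ⟨_, rfl⟩
  have hrr : (rr l l' n : ℝ) = ∑ u ∈ Ico 1 n, ((cn l u * cn l' (n - u) : ℕ) : ℝ) := by
    unfold rr
    push_cast
    rfl
  have e1 : TT l l' n - X * X' * rr l l' n =
      ∑ u ∈ Ico 1 n, (mu l u * mu l' (n - u) - X * X' * ((cn l u * cn l' (n - u) : ℕ) : ℝ)) := by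
    unfold TT
    rw [hrr, Finset.sum_sub_distrib, Finset.mul_sum]
  have hLe : l.prod * l'.prod * Real.log (n : ℝ) ^ (l.length + l'.length + 2) = X * X' := by
    rw [← hL, hXX]
  rw [hLe, e1]
  refine (Finset.abs_sum_le_sum_abs _ _).trans ?_
  rw [← Finset.sum_filter_add_sum_filter_not (Ico 1 n) (fun u : ℕ => (y ≤ u ∧ y ≤ ((n - u : ℕ) : ℝ))),
    ← hGd, ← hBd]
  apply add_le_add
  · calc ∑ u ∈ Gd, |mu l u * mu l' (n - u) - X * X' * ((cn l u * cn l' (n - u) : ℕ) : ℝ)| ≤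
          ∑ u ∈ Gd, ε * (X * X' * ((cn l u * cn l' (n - u) : ℕ) : ℝ)) := by
          apply Finset.sum_le_sum
          intro u hu
          rw [hGd, Finset.mem_filter] at hu
          exact good u hu.1 hu.2
      _ ≤ ∑ u ∈ Ico 1 n, ε * (X * X' * ((cn l u * cn l' (n - u) : ℕ) : ℝ)) := by
          apply Finset.sum_le_sum_of_subset_of_nonneg
          · rw [hGd]
            exact Finset.filter_subset _ _
          · intro u _ _
            positivity
      _ = ε * (X * X' * rr l l' n) := by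
          rw [hrr, Finset.mul_sum, Finset.mul_sum]
  · calc ∑ u ∈ Bd, |mu l u * mu l' (n - u) - X * X' * ((cn l u * cn l' (n - u) : ℕ) : ℝ)| ≤
          ∑ u ∈ Bd, K * L ^ M := by
          apply Finset.sum_le_sum
          intro u hu
          rw [hBd, Finset.mem_filter] at hu
          exact bad u hu.1
      _ = Bd.card * (K * L ^ M) := by rw [Finset.sum_const, nsmul_eq_mul]
      _ ≤ (2 * (y + 1)) * (K * L ^ M) := by
          apply mul_le_mul_of_nonneg_right _ (by positivity)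
          rw [hBd]
          exact bad_card n y (by linarith)
      _ ≤ (4 * y) * (K * (ε / (4 * K) * (n : ℝ) ^ η)) := by
          apply mul_le_mul (by linarith) _ (by positivity) (by linarith)
          exact mul_le_mul_of_nonneg_left hn1 hK0.le
      _ = ε * (y * (n : ℝ) ^ η) := by
          field_simp
      _ = ε * n := by
          rw [hy, ← Real.rpow_add hn0]
          norm_num

end Pool.Agent.D0H42.GI
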